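import Pool.Agent.MP_1246c0_nt.H55.SpecA

/-! The bound for the class number. -/

namespace Pool.Agent.MP_1246c0_nt.H19

open NumberField IsDedekindDomain Pool.Agent.MP_db5b97_nt.H85 Pool.Agent.MP_1246c0_nt.H55

variable {F : Type} [Field F] [NumberField F] {l : ℕ}

/-- the class of a nonzero ideal, written additively -/
noncomputable def cl (I : Ideal (𝓞 F)) (h : I ≠ ⊥) : Additive (ClassGroup (𝓞 F)) :=
  Additive.ofMul (ClassGroup.mk0 ⟨I, mem_nonZeroDivisors_of_ne_zero h⟩)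

theorem cl_mul {I J : Ideal (𝓞 F)} (hI : I ≠ ⊥) (hJ : J ≠ ⊥) :
    cl (I * J) (mul_ne_zero hI hJ) = cl I hI + cl J hJ := by
  unfold cl
  rw [← ofMul_mul, ← map_mul]
  rfl

theorem cl_span (a : 𝓞 F) (h : Ideal.span {a} ≠ ⊥) : cl (Ideal.span {a}) h = 0 := by
  unfold cl
  rw [ofMul_eq_zero, ClassGroup.mk0_eq_one_iff]
  exact ⟨a, rfl⟩

theorem cl_top : cl (⊤ : Ideal (𝓞 F)) top_ne_bot = 0 := by
  unfold cl
  rw [ofMul_eq_zero, ClassGroup.mk0_eq_one_iff]
  exact ⟨1, by simp⟩

theorem cl_surj (c : Additive (ClassGroup (𝓞 F))) : ∃ I hI, cl I hI = c := by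
  obtain ⟨I, e⟩ := ClassGroup.mk0_surjective (Additive.toMul c)
  exact ⟨I, nonZeroDivisors.ne_zero I.2, congrArg Additive.ofMul e⟩

theorem sub_mem_of_cl {I J : Ideal (𝓞 F)} {hI : I ≠ ⊥} {hJ : J ≠ ⊥} (h : cl I hI = cl J hJ) :
    dI l I - dI l J ∈ (dv F l).range := by
  obtain ⟨x, y, hx, hy, e⟩ := ClassGroup.mk0_eq_mk0_iff.1 (Additive.ofMul.injective h)
  refine ⟨mkI y hy - mkI x hx, ?_⟩
  have := congrArg (dI l) e
  rw [dI_mul (by simpa using hx) hI, dI_mul (by simpa using hy) hJ] at this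
  rw [map_sub, dv_mkI, dv_mkI]
  linear_combination (norm := abel1) -this

variable (F l) in
/-- classes whose divisor outside `l` is principal -/
def KK : AddSubgroup (Additive (ClassGroup (𝓞 F))) where
  carrier := {c | ∀ I hI, cl I hI = c → dI l I ∈ (dv F l).range}
  zero_mem' := fun I hI h => by
    simpa [dI_top] using sub_mem_of_cl (l := l) (h.trans cl_top.symm)
  add_mem' := by
    intro c d hc hd I hI h
    obtain ⟨J, hJ, rfl⟩ := cl_surj c
    obtain ⟨J', hJ', rfl⟩ := cl_surj d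
    have h1 := sub_mem_of_cl (l := l) (h.trans (cl_mul hJ hJ').symm)
    rw [dI_mul hJ hJ'] at h1
    simpa using add_mem h1 (add_mem (hc J hJ rfl) (hd J' hJ' rfl))
  neg_mem' := by
    intro c hc I hI h
    obtain ⟨J, hJ, rfl⟩ := cl_surj c
    have h0 : cl (I * J) (mul_ne_zero hI hJ) = cl ⊤ top_ne_bot := by
      rw [cl_mul hI hJ, h, cl_top, neg_add_cancel]
    have h1 := sub_mem_of_cl (l := l) h0
    rw [dI_mul hI hJ, dI_top, sub_zero] at h1
    simpa using sub_mem h1 (hc J hJ rfl)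

theorem pl_mem (w : Pl F l) : cl w.1.asIdeal w.1.ne_bot ∈ KK F l := fun I hI h => by
  simpa [dI_pl] using sub_mem_of_cl (l := l) h

section Psi

variable {Q : Type} [AddCommGroup Q] (π : Additive (ClassGroup (𝓞 F)) →+ Q)

variable (l) in
/-- the class of a divisor -/
noncomputable def psi : Dv F l →+ Q :=
  Finsupp.liftAddHom fun w => zmultiplesHom Q (π (cl w.1.asIdeal w.1.ne_bot))

theorem psi_single (w : Pr F l) (n : ℤ) :
    psi l π (Finsupp.single w n) = n • π (cl w.1.asIdeal w.1.ne_bot) := by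
  simp [psi]

theorem psi_dI (hπ : ∀ w : Pl F l, π (cl w.1.asIdeal w.1.ne_bot) = 0) (I : Ideal (𝓞 F)) :
    ∀ hI : I ≠ ⊥, psi l π (dI l I) = π (cl I hI) := by
  induction I using UniqueFactorizationMonoid.induction_on_prime with
  | h₁ => exact fun h => absurd rfl h
  | h₂ I hu =>
    intro hI
    obtain rfl : I = ⊤ := Ideal.isUnit_iff.1 hu
    rw [dI_top, cl_top, map_zero, map_zero]
  | h₃ I P hI hP ih =>
    intro h
    let w : Sp F := ⟨P, Ideal.isPrime_of_prime hP, hP.ne_zero⟩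
    have hw : psi l π (dI l P) = π (cl P hP.ne_zero) := by
      by_cases hl : (l : 𝓞 F) ∈ P
      · have h1 := dI_pl (⟨w, hl⟩ : Pl F l)
        have h2 := hπ ⟨w, hl⟩
        change dI l P = 0 at h1
        change π (cl P _) = 0 at h2
        rw [h1, h2, map_zero]
      · have h1 := dI_pr (⟨w, hl⟩ : Pr F l)
        change dI l P = _ at h1
        rw [h1, psi_single, one_smul]
    rw [dI_mul hP.ne_zero hI, map_add, hw, ih hI, ← map_add, ← cl_mul]

theorem psi_dv (hπ : ∀ w : Pl F l, π (cl w.1.asIdeal w.1.ne_bot) = 0) (x : Un F) :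
    psi l π (dv F l x) = 0 := by
  obtain ⟨a, ha, b, hb, rfl⟩ := exists_mkI x
  rw [map_sub, map_sub, dv_mkI, dv_mkI, psi_dI π hπ _ (by simpa using ha),
    psi_dI π hπ _ (by simpa using hb), cl_span, cl_span, sub_self]

end Psi

theorem nsmul_cl (w : Pl F l) (N : ℕ) (u : Un F) (hu : dv F l u = 0)
    (h : dvl F l u = Finsupp.single w (N : ℤ)) : (N : ℤ) • cl w.1.asIdeal w.1.ne_bot = 0 := by
  classical
  have h0 := psi_dv (l := 1) (AddMonoidHom.id _)
    (fun v => absurd (by simpa using v.2) v.1.isPrime.one_notMem) u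
  have h1 : dv F 1 u = Finsupp.single (Pool.Agent.MP_db5b97_nt.H10.pr1 w.1) (N : ℤ) := by
    ext v
    rw [dv_apply, Finsupp.single_apply]
    by_cases hl : (l : 𝓞 F) ∈ v.1.asIdeal
    · have h2 := congrArg (fun D => D (⟨v.1, hl⟩ : Pl F l)) h
      simp only [dvl_apply, Finsupp.single_apply] at h2
      rw [h2]
      exact if_congr ⟨fun e => Subtype.ext (congrArg (fun t : Pl F l => t.1) e),
        fun e => Subtype.ext (congrArg (fun t : Pr F 1 => t.1) e)⟩ rfl rfl
    · have h2 : ord v.1 u = 0 := congrArg (fun D => D (⟨v.1, hl⟩ : Pr F l)) hu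
      rw [h2, if_neg]
      intro e
      have e' : w.1 = v.1 := congrArg Subtype.val e
      exact hl (e' ▸ w.2)
  rw [h1, psi_single] at h0
  exact h0

theorem rowCLS : RowCLS := by
  classical
  intro F _ _ N hN hT hc hu
  have hfin : Finite (Pl F 3) := Pl_finite (by norm_num)
  have := Fintype.ofFinite (Pl F 3)
  let g : Pl F 3 → Additive (ClassGroup (𝓞 F)) := fun w => cl w.1.asIdeal w.1.ne_bot
  have hg : ∀ w, (N : ℤ) • g w = 0 := fun w => by
    obtain ⟨u, h1, h2⟩ := hu w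
    exact nsmul_cl w N u h1 h2
  let φ : (Pl F 3 → ℤ) →+ Additive (ClassGroup (𝓞 F)) :=
    { toFun := fun e => ∑ w, e w • g w
      map_zero' := by simp
      map_add' := fun e e' => by simp [add_smul, Finset.sum_add_distrib] }
  let H := φ.range
  have hgH : ∀ w, g w ∈ H := fun w => ⟨Pi.single w 1, by
    change ∑ v, (Pi.single w (1 : ℤ) : Pl F 3 → ℤ) v • g v = g w
    rw [Finset.sum_eq_single w (fun v _ h => by simp [Pi.single_eq_of_ne h]) (by simp)]
    simp⟩
  have hHK : H ≤ KK F 3 := by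
    rintro _ ⟨e, rfl⟩
    exact sum_mem fun w _ => zsmul_mem (pl_mem w) _
  have hcard : Nat.card H ≤ N ^ 2 := by
    have hs : Function.Surjective fun e : Pl F 3 → Fin N =>
        (⟨φ fun w => ((e w : ℕ) : ℤ), _, rfl⟩ : H) := by
      rintro ⟨_, e, rfl⟩
      have hN' : (0 : ℤ) < N := by exact_mod_cast hN
      refine ⟨fun w => ⟨(e w % N).toNat, ?_⟩, Subtype.ext ?_⟩
      · have h1 := Int.emod_lt_of_pos (e w) hN'
        have h2 := Int.emod_nonneg (e w) hN'.ne'
        omega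
      · change ∑ w, (((e w % N).toNat : ℕ) : ℤ) • g w = ∑ w, e w • g w
        refine Finset.sum_congr rfl fun w _ => ?_
        rw [Int.toNat_of_nonneg (Int.emod_nonneg _ hN'.ne')]
        conv_rhs => rw [← Int.emod_add_ediv_mul (e w) N, add_smul, mul_smul, hg, smul_zero,
          add_zero]
    refine (Nat.card_le_card_of_surjective _ hs).trans ?_
    rw [Nat.card_fun, Nat.card_fin]
    exact Nat.pow_le_pow_right hN hc
  have h3 : ¬ 3 ∣ Nat.card (Additive (ClassGroup (𝓞 F)) ⧸ H) := by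
    intro hd
    have : Fact (Nat.Prime 3) := ⟨Nat.prime_three⟩
    obtain ⟨q, hq⟩ := exists_prime_addOrderOf_dvd_card' 3 hd
    obtain ⟨c, rfl⟩ := QuotientAddGroup.mk_surjective q
    obtain ⟨I, hI, rfl⟩ := cl_surj c
    have h1 : 3 • cl I hI ∈ H := by
      rw [← QuotientAddGroup.eq_zero_iff, QuotientAddGroup.mk_nsmul, ← hq]
      exact addOrderOf_nsmul_eq_zero _
    have h2 : cl (I * I * I) (mul_ne_zero (mul_ne_zero hI hI) hI) = 3 • cl I hI := by
      rw [cl_mul (mul_ne_zero hI hI) hI, cl_mul hI hI]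
      abel
    have h4 := hHK h1 _ _ h2
    rw [dI_mul (mul_ne_zero hI hI) hI, dI_mul hI hI] at h4
    obtain ⟨x, hx⟩ := hT (dI 3 I) (by convert h4 using 1; abel)
    have hπ : ∀ w : Pl F 3, QuotientAddGroup.mk' H (cl w.1.asIdeal w.1.ne_bot) = 0 :=
      fun w => (QuotientAddGroup.eq_zero_iff _).2 (hgH w)
    have h5 := psi_dv (QuotientAddGroup.mk' H) hπ x
    rw [hx, psi_dI _ hπ I hI] at h5
    change ((cl I hI : _) : _ ⧸ H) = 0 at h5
    rw [h5, addOrderOf_zero] at hq
    omega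
  have : Fact (Nat.Prime 3) := ⟨Nat.prime_three⟩
  have e : Nat.card (ClassGroup (𝓞 F)) =
      Nat.card (Additive (ClassGroup (𝓞 F)) ⧸ H) * Nat.card H :=
    AddSubgroup.card_eq_card_quotient_mul_card_addSubgroup H
  rw [e, padicValNat.mul Nat.card_pos.ne' Nat.card_pos.ne', padicValNat.eq_zero_of_not_dvd h3,
    zero_add]
  exact ((padicValNat_le_nat_log _).trans (Nat.log_le_self _ _)).trans hcard

end Pool.Agent.MP_1246c0_nt.H19
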